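import Pool.Agent.Lib.MP_94fdc2_nt.Main

/-! MP_14e7d7_nt: the sieve for `2 ^ n - m` and `2 ^ n + m`, `m = 15015 + 30030 s`. -/

set_option autoImplicit false

open Finset

namespace Pool.Agent.MP_14e7d7_nt

open Pool.Agent.SievePar
open Pool.Agent.MP_94fdc2_nt (sieve_len card_lin_le prime_not_dvd_W)

/-- the product of the two forms -/
def PP (n : ℕ) (x : ℕ) : ℤ := ((2 : ℤ) ^ n - x) * ((2 : ℤ) ^ n + x)

theorem small_prime (n : ℕ) (hn : 1 ≤ n) (p : ℕ) (hp : p.Prime) (h16 : p ≤ 16) (s : ℕ) :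
    ¬ (p : ℤ) ∣ PP n (15015 + 30030 * s) := by
  have hpi : Prime (p : ℤ) := Nat.prime_iff_prime_int.mp hp
  intro h
  rcases Nat.lt_or_ge p 3 with h3 | h3
  · have h2 : p = 2 := by have := hp.two_le; omega
    subst h2
    obtain ⟨k, rfl⟩ : ∃ k, n = k + 1 := ⟨n - 1, by omega⟩
    rcases hpi.dvd_or_dvd h with h4 | h4
    · obtain ⟨c, hc⟩ := h4
      push_cast at hc
      rw [pow_succ] at hc
      omega
    · obtain ⟨c, hc⟩ := h4
      push_cast at hc
      rw [pow_succ] at hc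
      omega
  · have hd : p ∣ 15015 := by
      interval_cases p <;> first | decide | (exfalso; revert hp; norm_num)
    have hx : (p : ℤ) ∣ ((15015 + 30030 * s : ℕ) : ℤ) := by
      apply Int.natCast_dvd_natCast.mpr
      exact (Nat.dvd_add_right hd).mpr (Dvd.dvd.mul_right (hd.trans ⟨2, by norm_num⟩) _)
    have h2n : ¬ (p : ℤ) ∣ (2 : ℤ) ^ n := by
      intro h4
      have h5 := hpi.dvd_of_dvd_pow h4
      have h6 : p ∣ 2 := by exact_mod_cast h5
      have := Nat.le_of_dvd (by norm_num) h6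
      omega
    rcases hpi.dvd_or_dvd h with h4 | h4
    · exact h2n (by
        have := dvd_add h4 hx
        rwa [sub_add_cancel] at this)
    · exact h2n ((dvd_add_left hx).mp h4)

/-- the set of excluded residues -/
noncomputable def SS (n : ℕ) (p : ℕ) : Finset ℕ :=
  if p.Prime ∧ 16 < p then
    (range p).filter (fun s => (p : ℤ) ∣ PP n (15015 + 30030 * s)) else ∅

theorem SS_card (n p : ℕ) : (SS n p).card ≤ 2 := by
  classical
  unfold SS
  split_ifs with h
  · obtain ⟨hp, h16⟩ := h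
    have hpi : Prime (p : ℤ) := Nat.prime_iff_prime_int.mp hp
    have hW := prime_not_dvd_W p hp h16
    have hneg : (p : ℤ) ∣ (-1 : ℤ) → ¬ (p : ℤ) ∣ (2 : ℤ) ^ n := fun h2 =>
      absurd ((dvd_neg).mp h2) hpi.not_dvd_one
    have hone : (p : ℤ) ∣ (1 : ℤ) → ¬ (p : ℤ) ∣ (2 : ℤ) ^ n := fun h2 =>
      absurd h2 hpi.not_dvd_one
    have h1 := card_lin_le p hp (-1) ((2 : ℤ) ^ n) hneg 15015 30030 hW
    have h2 := card_lin_le p hp 1 ((2 : ℤ) ^ n) hone 15015 30030 hW
    calc ((range p).filter (fun s => (p : ℤ) ∣ PP n (15015 + 30030 * s))).card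
        ≤ (((range p).filter (fun s => (p : ℤ) ∣ (-1) * ((15015 + 30030 * s : ℕ) : ℤ) + (2 : ℤ) ^ n)) ∪
          ((range p).filter (fun s => (p : ℤ) ∣ 1 * ((15015 + 30030 * s : ℕ) : ℤ)
            + (2 : ℤ) ^ n))).card := by
          apply Finset.card_le_card
          intro s hs
          rw [Finset.mem_filter] at hs
          rw [Finset.mem_union, Finset.mem_filter, Finset.mem_filter]
          unfold PP at hs
          rcases hpi.dvd_or_dvd hs.2 with h3 | h3
          · refine Or.inl ⟨hs.1, ?_⟩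
            have h4 : (-1) * ((15015 + 30030 * s : ℕ) : ℤ) + (2 : ℤ) ^ n
              = (2 : ℤ) ^ n - ((15015 + 30030 * s : ℕ) : ℤ) := by ring
            rw [h4]
            exact h3
          · refine Or.inr ⟨hs.1, ?_⟩
            have h4 : 1 * ((15015 + 30030 * s : ℕ) : ℤ) + (2 : ℤ) ^ n
              = (2 : ℤ) ^ n + ((15015 + 30030 * s : ℕ) : ℤ) := by ring
            rw [h4]
            exact h3
      _ ≤ _ := Finset.card_union_le _ _
      _ ≤ 2 := by omega
  · simp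

theorem PP_congr (n : ℕ) (p : ℕ) {x y : ℕ} (h : x ≡ y [MOD p]) :
    (p : ℤ) ∣ PP n x ↔ (p : ℤ) ∣ PP n y := by
  have h1 : (x : ℤ) ≡ y [ZMOD p] := (Int.natCast_modEq_iff).mpr h
  have h2 : PP n x ≡ PP n y [ZMOD p] := by
    unfold PP
    exact (h1.sub_left _).mul (h1.add_left _)
  exact h2.dvd_iff

/-- For `L ≥ 30030 (2 ^ 408 + 4)` there are many `x` with `1 ≤ x ≤ L` such that `2 ^ n - x` and
`2 ^ n + x` have only large prime factors. -/
theorem main (n L : ℕ) (hn1 : 1 ≤ n) (hL : 30030 * (2 ^ 408 + 4) ≤ L) :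
    ∃ T : Finset ℕ, L < T.card ^ 5 ∧
      ∀ x ∈ T, 1 ≤ x ∧ x ≤ L ∧ ∀ p : ℕ, p.Prime → (p : ℤ) ∣ PP n x → L < p ^ 833 := by
  classical
  obtain ⟨u, Y0, hu, hn, h833, hs⟩ : ∃ u Y0 : ℕ, 1 ≤ u ∧ 30030 * (Y0 + 4) ≤ L ∧ 833 = u + 17 ∧
      ∀ S : ℕ → Finset ℕ, (∀ p, S p ⊆ range p) → (∀ p, (S p).card ≤ 2) →
      (∀ p, p ≤ 16 → S p = ∅) → ∀ Y : ℕ, Y0 ≤ Y →
      ∃ z : ℕ, 2 ≤ z ∧ Y < z ^ u ∧ z ^ 204 ≤ (sv S z Y).card :=
    ⟨816, 2 ^ 408, by norm_num, hL, rfl, fun S h1 h2 h3 Y hY => sieve_len S h1 h2 h3 Y hY⟩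
  rw [h833]
  have hu816 : u + 17 ≤ 204 * 5 := by omega
  clear hL h833
  obtain ⟨Y, hY⟩ : ∃ Y, Y = L / 30030 - 3 := ⟨_, rfl⟩
  have hn4 : Y0 + 4 ≤ L / 30030 := by
    rw [Nat.le_div_iff_mul_le (by norm_num)]
    linarith
  have hdiv := Nat.div_add_mod L 30030
  have hmod := Nat.mod_lt L (show 0 < 30030 by norm_num)
  obtain ⟨z, hz2, hYz, hcard⟩ := hs (SS n) (fun p => by
      unfold SS
      split_ifs
      · exact Finset.filter_subset _ _
      · exact Finset.empty_subset _) (SS_card n) (fun p hp => by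
      unfold SS
      rw [if_neg]
      omega) Y (by omega)
  have hnz : L < z ^ (u + 17) := by
    have h1 : L < 30030 * (Y + 4) := by omega
    have h2 : 2 ≤ z ^ u := by
      calc 2 = 2 ^ 1 := by norm_num
        _ ≤ z ^ 1 := Nat.pow_le_pow_left hz2 1
        _ ≤ z ^ u := Nat.pow_le_pow_right (by omega) hu
    have h3 : 2 ^ 17 ≤ z ^ 17 := Nat.pow_le_pow_left hz2 17
    have h5 : 2 ^ 17 = 131072 := by norm_num
    calc L < 30030 * (Y + 4) := h1
      _ ≤ z ^ u * 131072 := by omega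
      _ ≤ z ^ u * z ^ 17 := Nat.mul_le_mul_left _ (by omega)
      _ = z ^ (u + 17) := (pow_add _ _ _).symm
  refine ⟨(sv (SS n) z Y).image (fun s => 15015 + 30030 * s), ?_, ?_⟩
  · rw [Finset.card_image_of_injective _ (fun s t hst => by
      have : 15015 + 30030 * s = 15015 + 30030 * t := hst
      omega)]
    calc L < z ^ (u + 17) := hnz
      _ ≤ z ^ (204 * 5) := Nat.pow_le_pow_right (by omega) hu816
      _ = (z ^ 204) ^ 5 := pow_mul _ _ _
      _ ≤ _ := Nat.pow_le_pow_left hcard _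
  · intro x hx
    rw [Finset.mem_image] at hx
    obtain ⟨s, hsm, rfl⟩ := hx
    rw [mem_sv] at hsm
    refine ⟨by omega, by omega, ?_⟩
    intro p hp hdvd
    have hzp : z < p := by
      by_contra hcon
      push Not at hcon
      rcases Nat.lt_or_ge 16 p with h16 | h16
      · apply hsm.2 p hp hcon
        unfold SS
        rw [if_pos ⟨hp, h16⟩, Finset.mem_filter, Finset.mem_range]
        refine ⟨Nat.mod_lt _ hp.pos, ?_⟩
        refine (PP_congr n p ?_).mpr hdvd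
        exact (Nat.ModEq.rfl).add ((Nat.mod_modEq s p).mul_left _)
      · exact small_prime n hn1 p hp h16 s hdvd
    calc L < z ^ (u + 17) := hnz
      _ ≤ p ^ (u + 17) := Nat.pow_le_pow_left hzp.le _

end Pool.Agent.MP_14e7d7_nt
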